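import Pool.Agent.helper91.RB.Spec5

set_option autoImplicit false

namespace Pool.Agent.RB

open NumberField IsDedekindDomain Module
open scoped nonZeroDivisors Real Classical IsMulCommutative

theorem ANT : ANT_stmt := by
  intro G _ _ c W _ _ r hr f u
  have h1 : (MonoidAlgebra.single c 1 : MonoidAlgebra ℚ G) • u = - u := by
    have h2 : (MonoidAlgebra.single c 1 : MonoidAlgebra ℚ G) •
        (LinearMap.id : ⋀[MonoidAlgebra ℚ G]^r (Wm c W) →ₗ[MonoidAlgebra ℚ G] _) =
        - LinearMap.id := by
      apply exteriorPower.linearMap_ext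
      ext v
      have e : (MonoidAlgebra.single c 1 : MonoidAlgebra ℚ G) •
          exteriorPower.ιMulti (MonoidAlgebra ℚ G) r v =
          - exteriorPower.ιMulti (MonoidAlgebra ℚ G) r v := by
        have e1 : v = Function.update v ⟨0, hr⟩ (v ⟨0, hr⟩) := (Function.update_eq_self _ _).symm
        have e2 : (MonoidAlgebra.single c 1 : MonoidAlgebra ℚ G) • v ⟨0, hr⟩ =
          (-1 : MonoidAlgebra ℚ G) • v ⟨0, hr⟩ := by
          have e3 : (MonoidAlgebra.single c 1 : MonoidAlgebra ℚ G) • v ⟨0, hr⟩ = - v ⟨0, hr⟩ :=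
            Subtype.ext (v ⟨0, hr⟩).2
          rw [e3]
          exact (neg_one_smul (MonoidAlgebra ℚ G) (v ⟨0, hr⟩)).symm
        rw [e1, ← AlternatingMap.map_update_smul, e2, AlternatingMap.map_update_smul, neg_one_smul]
      exact congrArg Subtype.val e
    exact congrFun (congrArg DFunLike.coe h2) u
  rw [← smul_eq_mul, ← map_smul, h1, map_neg]

end Pool.Agent.RB
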