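import Pool.Agent.helper91.RB.Spec5

set_option autoImplicit false

namespace Pool.Agent.RB

open NumberField IsDedekindDomain Module
open scoped nonZeroDivisors Real Classical IsMulCommutative

theorem BOR (hORD : ORD_stmt) (hARS : ARS_stmt) (hSPL : SPL_stmt) : BOR_stmt := by
  intro F K H _ _ _ _ _ _ _ _ _ _ _ _ w hw D x hx hD
  obtain ⟨-, -, h3⟩ := hSPL F H w hw
  obtain ⟨-, -, h4⟩ := h3 K
  obtain ⟨-, -, -, -, -, h5, -⟩ := hORD K
  unfold bD ordZ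
  refine Fintype.sum_equiv (Equiv.inv (H ≃ₐ[F] H)) _ _ (fun τ => ?_)
  rw [Equiv.inv_apply, inv_inv, hD]
  congr 1
  have e1 : (τ⁻¹ : H ≃ₐ[F] H) (algebraMap K H x) =
      algebraMap K H ((AlgEquiv.restrictNormalHom K τ⁻¹ : K ≃ₐ[F] K) x) :=
    (AlgEquiv.restrictNormal_commutes (τ⁻¹ : H ≃ₐ[F] H) K x).symm
  rw [e1, h4]
  have e2 := (h5 ((AlgEquiv.restrictNormalHom K τ : K ≃ₐ[F] K) : K ≃+* K) (w.under (𝓞 K))
    ((AlgEquiv.restrictNormalHom K τ⁻¹ : K ≃ₐ[F] K) x)).2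
  rw [← e2]
  congr 1
  rw [map_inv]
  exact ((AlgEquiv.restrictNormalHom K τ : K ≃ₐ[F] K).apply_symm_apply x).symm

end Pool.Agent.RB
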