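import Pool.Agent.helper91.RB.Spec6

set_option autoImplicit false

/-!
# Row rb:RBF: the final theorem (after the proof of row RUB by helper3)
-/

namespace Pool.Agent.RB

open NumberField IsDedekindDomain Module
open scoped nonZeroDivisors Real Classical IsMulCommutative

/-- Bezout: two denominators of a rational number can be replaced by their gcd -/
lemma RBF_bezout {q : ℚ} {a b : ℕ} (h1 : ∃ z : ℤ, (a : ℚ) * q = z) (h2 : ∃ z : ℤ, (b : ℚ) * q = z) :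
    ∃ z : ℤ, ((Nat.gcd a b : ℕ) : ℚ) * q = z := by
  obtain ⟨z1, h1⟩ := h1
  obtain ⟨z2, h2⟩ := h2
  refine ⟨Nat.gcdA a b * z1 + Nat.gcdB a b * z2, ?_⟩
  have h3 : ((Nat.gcd a b : ℕ) : ℚ) = a * (Nat.gcdA a b : ℚ) + b * (Nat.gcdB a b : ℚ) := by
    have := Nat.gcd_eq_gcd_ab a b
    exact_mod_cast this
  rw [h3]
  push_cast
  rw [← h1, ← h2]
  ring

/-- the odd part of `n` is a denominator -/
lemma RBF_odd {q : ℚ} {n e k : ℕ} (he : Odd e) (h1 : ∃ z : ℤ, (n : ℚ) * q = z)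
    (h2 : ∃ z : ℤ, (e : ℚ) * 2 ^ k * q = z) :
    ∃ z : ℤ, ((n / 2 ^ n.factorization 2 : ℕ) : ℚ) * 2 ^ k * q = z := by
  have h3 : ∃ z : ℤ, (n : ℚ) * (2 ^ k * q) = z := by
    obtain ⟨z, hz⟩ := h1
    refine ⟨2 ^ k * z, ?_⟩
    push_cast
    rw [← hz]; ring
  have h4 : ∃ z : ℤ, (e : ℚ) * (2 ^ k * q) = z := by
    obtain ⟨z, hz⟩ := h2
    exact ⟨z, by rw [← hz]; ring⟩
  obtain ⟨z, hz⟩ := RBF_bezout h3 h4
  have hodd : Nat.Coprime (Nat.gcd n e) (2 ^ n.factorization 2) := by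
    apply Nat.Coprime.pow_right
    apply Nat.Coprime.coprime_dvd_left (Nat.gcd_dvd_right n e)
    exact (Nat.coprime_two_right).2 he
  have hdvd : Nat.gcd n e ∣ n / 2 ^ n.factorization 2 := by
    have h5 : n = 2 ^ n.factorization 2 * (n / 2 ^ n.factorization 2) :=
      (Nat.ordProj_mul_ordCompl_eq_self n 2).symm
    have h6 : Nat.gcd n e ∣ 2 ^ n.factorization 2 * (n / 2 ^ n.factorization 2) := by
      rw [← h5]; exact Nat.gcd_dvd_left n e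
    exact hodd.dvd_of_dvd_mul_left h6
  obtain ⟨t, ht⟩ := hdvd
  refine ⟨t * z, ?_⟩
  rw [ht]
  push_cast
  rw [← hz]
  ring

/-- an element of the rational group ring with integral coefficients is integral -/
lemma RBF_zq {G : Type} [Group G] [Finite G] {y : MonoidAlgebra ℚ G}
    (h : ∀ σ : G, ∃ z : ℤ, y.coeff σ = z) : ∃ x : MonoidAlgebra ℤ G, y = zq x := by
  let _ : Fintype G := Fintype.ofFinite G
  choose z hz using h
  refine ⟨MonoidAlgebra.ofCoeff (Finsupp.equivFunOnFinite.symm z), ?_⟩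
  apply MonoidAlgebra.ext
  ext σ
  rw [hz σ]
  unfold zq
  rw [MonoidAlgebra.coeff_mapRingHom]
  simp

theorem RBF_first (hCF2 : CF2_stmt) (hCE2 : CE2_stmt) (hUNI : UNI_stmt) (hANT : ANT_stmt) :
    ∀ (F H : Type) [Field F] [NumberField F] [Field H] [NumberField H] [Algebra F H] [IsAbelianGalois F H] [IsTotallyReal F] [IsCMField H]
  (r : ℕ), 1 ≤ r → ∀ (D : RData F H r) (m : ℕ), Nat.card (H ≃ₐ[F] H) = 2 ^ m →
  ∀ (Lf : ((H ≃ₐ[F] H) →* ℂˣ) → ℂ → ℂ), isL Lf → ∀ Θ : MonoidAlgebra ℚ (H ≃ₐ[F] H), (∀ χ, evQ χ Θ = LST Lf D.S D.T χ⁻¹) →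
  ∀ (W : Type) [AddCommGroup W] [Module (MonoidAlgebra ℚ (H ≃ₐ[F] H)) W]
    (ι : Additive (Ut F H (D.T : Set (HOS F)) (Set.range D.v)) →+ W), isQU (F := F) (Ut F H (D.T : Set (HOS F)) (Set.range D.v)) ι →
  ∀ o : Fin r → W →ₗ[MonoidAlgebra ℚ (H ≃ₐ[F] H)] MonoidAlgebra ℚ (H ≃ₐ[F] H),
    (∀ j (x : Ut F H (D.T : Set (HOS F)) (Set.range D.v)), o j (ι (Additive.ofMul x)) = zq (ordZ F (D.w j) ((x : Hˣ) : H))) →
  ∀ u : ⋀[MonoidAlgebra ℚ (H ≃ₐ[F] H)]^r (Wm D.c W), DT (fun j => (o j).comp (Wm D.c W).subtype) u = Θ →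
  (∀ (a h k : ℕ) (g₀ : H ≃ₐ[F] H), (∀ g : H ≃ₐ[F] H, g ^ 2 ^ a = 1) → g₀ ^ 2 ^ h = D.c →
    (D.S = ∅ → m + 1 ≤ finrank ℚ F + h + k) →
    (D.S ≠ ∅ → m * 2 ^ (a - 1) + 2 ≤ (finrank ℚ F + h + k) * 2 ^ (a - 1) + D.S.card + 2 ^ (a - 1 - h)) →
    ∃ d : ℕ, Odd d ∧ (d * 2 ^ k) • u ∈ RL D.c W ι r) := by
  intro F H _ _ _ _ _ _ _ _ r hr D m hcard Lf hLf Θ hΘ W _ _ ι hι o ho u hu a h k g₀ ha hg₀ hS0 hS1
  obtain ⟨N, hN0, hN⟩ := hUNI (H ≃ₐ[F] H) (Additive (Ut F H (D.T : Set (HOS F)) (Set.range D.v))) W ι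
    hι.denom (Wm D.c W) r u
  refine ⟨N / 2 ^ N.factorization 2, ?_, ?_⟩
  · rw [← Nat.coprime_two_right]
    exact (Nat.coprime_ordCompl Nat.prime_two hN0).symm
  intro f hf
  have hc2 : D.c * D.c = 1 := by
    ext x
    show D.c (D.c x) = x
    rw [D.hc, D.hc, IsCMField.complexConj_apply_apply]
  have hc1 : D.c ≠ 1 := by
    intro h1
    apply IsCMField.complexConj_ne_one H
    ext x
    rw [← D.hc, h1]
    rfl
  set y := DT (fun j => (f j).comp (Wm D.c W).subtype) u with hy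
  have h1 := hANT (H ≃ₐ[F] H) D.c W r hr f u
  obtain ⟨e, he, h2⟩ := hCE2 (H ≃ₐ[F] H) m h a g₀ D.c hcard ha hg₀.symm hc1 hc2 y
    (finrank ℚ F) D.S.card k h1
    (fun χ hχ => hCF2 F H r D m hcard Lf hLf Θ hΘ W ι hι o ho u hu f hf χ hχ)
    (fun hs => hS0 (Finset.card_eq_zero.1 hs))
    (fun hs => hS1 (fun h0 => hs (Finset.card_eq_zero.2 h0)))
  obtain ⟨x, hx⟩ := hN f hf
  rw [map_nsmul, ← hy]
  apply RBF_zq
  intro σ
  have h3 : ∃ z : ℤ, (N : ℚ) * y.coeff σ = z := by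
    refine ⟨x.coeff σ, ?_⟩
    have h4 : (N • y).coeff σ = (zq x).coeff σ := by rw [hy, hx]
    unfold zq at h4
    rw [MonoidAlgebra.coeff_mapRingHom, MonoidAlgebra.coeff_smul_apply, nsmul_eq_mul] at h4
    exact h4
  obtain ⟨z, hz⟩ := RBF_odd he h3 (h2 σ)
  refine ⟨z, ?_⟩
  rw [MonoidAlgebra.coeff_smul_apply, nsmul_eq_mul]
  push_cast
  exact hz

lemma RBF_cyc {G : Type} [Group G] [Finite G] (hG : IsCyclic G) (m : ℕ) (hm : Nat.card G = 2 ^ m)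
    (c : G) (hc1 : c ≠ 1) (hc2 : c * c = 1) : 1 ≤ m ∧ ∃ g : G, g ^ 2 ^ (m - 1) = c := by
  have hm1 : 1 ≤ m := by
    by_contra h
    have h0 : m = 0 := by omega
    rw [h0, pow_zero] at hm
    have := (Nat.card_eq_one_iff_unique.1 hm).1
    exact hc1 (Subsingleton.elim _ _)
  refine ⟨hm1, ?_⟩
  obtain ⟨g, hg⟩ := hG.exists_generator
  have hord : orderOf g = 2 ^ m := by
    rw [← hm]
    exact orderOf_eq_card_of_forall_mem_zpowers hg
  refine ⟨g, ?_⟩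
  have hfin : IsOfFinOrder g := isOfFinOrder_of_finite g
  obtain ⟨i, hi⟩ := hfin.mem_powers_iff_mem_zpowers.2 (hg c)
  have hi : g ^ i = c := hi
  have h1 : g ^ (2 * i) = 1 := by
    rw [two_mul, pow_add, hi, hc2]
  have h2 : 2 ^ m ∣ 2 * i := by
    rw [← hord]
    exact orderOf_dvd_of_pow_eq_one h1
  obtain ⟨q, rfl⟩ : ∃ q, m = q + 1 := ⟨m - 1, by omega⟩
  rw [Nat.add_sub_cancel]
  rw [pow_succ, mul_comm (2 ^ q) 2] at h2
  have h3 : 2 ^ q ∣ i := Nat.dvd_of_mul_dvd_mul_left (by norm_num) h2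
  obtain ⟨j, rfl⟩ := h3
  have h4 : (g ^ 2 ^ q) ^ 2 = 1 := by
    rw [← pow_mul, ← pow_succ, ← hord, pow_orderOf_eq_one]
  rw [pow_mul] at hi
  rcases Nat.even_or_odd j with ⟨t, ht⟩ | ⟨t, ht⟩
  · exfalso
    apply hc1
    rw [← hi, ht, ← two_mul, pow_mul, h4, one_pow]
  · rw [← hi, ht, pow_add, pow_mul, h4, one_pow, one_mul, pow_one]

theorem RBF (hCF2 : CF2_stmt) (hCE2 : CE2_stmt) (hUNI : UNI_stmt) (hANT : ANT_stmt)
    (hMNK : MNK_stmt) : RBF_stmt := by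
  intro F H _ _ _ _ _ _ _ _ r hr D m hcard Lf hLf Θ hΘ W _ _ ι hι o ho u hu
  have hfirst := RBF_first hCF2 hCE2 hUNI hANT F H r hr D m hcard Lf hLf Θ hΘ W ι hι o ho u hu
  refine ⟨hfirst, fun hcyc => ?_⟩
  have hc2 : D.c * D.c = 1 := by
    ext x
    show D.c (D.c x) = x
    rw [D.hc, D.hc, IsCMField.complexConj_apply_apply]
  have hc1 : D.c ≠ 1 := by
    intro h1
    apply IsCMField.complexConj_ne_one H
    ext x
    rw [← D.hc, h1]
    rfl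
  obtain ⟨hm1, g, hg⟩ := RBF_cyc hcyc m hcard D.c hc1 hc2
  have hn : 0 < finrank ℚ F := finrank_pos
  obtain ⟨d, hd, h1⟩ := hfirst m (m - 1) 0 g (fun g => by rw [← hcard, pow_card_eq_one']) hg
    (fun hS => by
      have h2 := hMNK F H (fun P => D.hram P (by rw [hS]; exact Finset.notMem_empty _))
      omega)
    (fun hS => by
      have h3 : 1 ≤ D.S.card := Finset.card_pos.2 (Finset.nonempty_iff_ne_empty.2 hS)
      rw [Nat.sub_self, pow_zero, add_zero]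
      have h4 : m * 2 ^ (m - 1) ≤ (finrank ℚ F + (m - 1)) * 2 ^ (m - 1) :=
        Nat.mul_le_mul_right _ (by omega)
      omega)
  refine ⟨d, hd, ?_⟩
  rwa [pow_zero, mul_one] at h1

end Pool.Agent.RB
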