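import Pool.Agent.helper91.RB.Spec5

set_option autoImplicit false

namespace Pool.Agent.RB

open NumberField IsDedekindDomain Module
open scoped nonZeroDivisors Real Classical IsMulCommutative

theorem TCK (hVLU : VLU_stmt) : TCK_stmt := by
  intro F K H _ _ _ _ _ _ _ _ _ _ T hH ζ hζ hT
  obtain ⟨h1, -, h3, h4⟩ := hVLU K H
  obtain ⟨ζ', hζ', e⟩ := h3 ζ hζ
  have h5 : ζ' = 1 := by
    apply hH ζ' hζ'
    intro P hP
    obtain ⟨e0, -, h6⟩ := h1 P
    have h7 := (h6 (((ζ : (𝓞 K)ˣ) : K) - 1)).2.2.1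
    rw [e]
    have h8 := h7.2 (hT (P.under (𝓞 K)) (by rw [h4 F P]; exact hP))
    rwa [map_sub, map_one] at h8
  rw [h5] at e
  have h6 : algebraMap K H ((ζ : (𝓞 K)ˣ) : K) = algebraMap K H 1 := by
    rw [← e, map_one]
    simp
  have h7 : ((ζ : (𝓞 K)ˣ) : K) = 1 := (algebraMap K H).injective h6
  apply Units.ext
  apply RingOfIntegers.ext
  refine h7.trans ?_
  simp

end Pool.Agent.RB
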